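import Pool.Agent.TH573.BF.Core

/-!
Borel-Cantelli: almost surely almost all slices cancel, at all dyadic scales.
-/

set_option autoImplicit false

namespace Pool.Agent.TH573.BF

open Finset MeasureTheory Filter Polynomial
open scoped ENNReal
open Pool.Agent.H220M

theorem log_tendsto : Tendsto (fun j : ℕ => Nat.log 2 (j / 4)) atTop atTop := by
  rw [tendsto_atTop]
  intro b
  filter_upwards [eventually_ge_atTop (2 ^ (b + 2))] with j hj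
  rw [M6.log_div]
  have : b + 2 ≤ Nat.log 2 j := Nat.le_log_of_pow_le (by norm_num) hj
  omega

theorem one_eps (hM5 : StmM5) (g : ℕ → ℤˣ) (Q : Set ℕ) (hQ : ∀ q ∈ Q, q.Prime) (T : ℤ[X])
    (D : ℕ) (hT : T.natDegree ≤ D) (w : ℤ → ℤ → ℝ) (hw : ∀ v u, |w v u| ≤ 1)
    (hThick : Thick {q | q ∈ Q ∧ SimpleRoot T q}) (ε : ℝ) (hε : 0 < ε) :
    ∀ᵐ ω ∂coins, ∀ᶠ j : ℕ in atTop, ∀ c e : ℤ → ℤ,
      ∑ v ∈ Icc (-((2 ^ j : ℕ) : ℤ)) (2 ^ j : ℕ), |inner g Q T D w ω (2 ^ j) v (c v) (e v)| ≤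
        ε * 4 ^ j := by
  classical
  obtain ⟨η, hη⟩ : ∃ η : ℝ, η = ε / 63 := ⟨_, rfl⟩
  have hη0 : 0 < η := by rw [hη]; positivity
  obtain ⟨L, hL⟩ := exists_nat_gt (1 / η)
  have hL0 : (0 : ℝ) < L := lt_trans (by positivity) hL
  have hL1 : 1 ≤ L := by
    have : 0 < L := by exact_mod_cast hL0
    omega
  have hLη : 1 / (L : ℝ) ≤ η := by
    rw [div_le_iff₀ hL0]
    rw [div_lt_iff₀ hη0] at hL
    linarith
  have c1 : ∀ᶠ j : ℕ in atTop, 4 * Real.log (2 / η) + 3 ≤ ∑ q ∈ Q0 Q T j, (1 : ℝ) / q := by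
    have h2 := hThick.comp (Nat.tendsto_div_const_atTop (by norm_num : (4 : ℕ) ≠ 0))
    have h3 := h2.eventually_ge_atTop (4 * Real.log (2 / η) + 3)
    filter_upwards [h3] with j hj
    refine hj.trans (le_of_eq ?_)
    simp only [Function.comp]
    apply Finset.sum_congr _ (fun _ _ => rfl)
    unfold Q0
    ext q
    simp only [Finset.mem_filter]
    exact Iff.rfl
  have c2 : ∀ᶠ j : ℕ in atTop, 4 * (2 * (Nat.log 2 j + 1)) * D ≤ (Nat.log 2 (j / 4)) ^ 2 := by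
    filter_upwards [eventually_ge_atTop (2 ^ (8 * D + 10))] with j hj
    have hL : 8 * D + 10 ≤ Nat.log 2 j :=
      Nat.le_log_of_pow_le (by norm_num) hj
    rw [M6.log_div]
    obtain ⟨L, hL'⟩ : ∃ L, Nat.log 2 j = L + 2 := ⟨Nat.log 2 j - 2, by omega⟩
    rw [hL'] at hL ⊢
    rw [Nat.add_sub_cancel]
    have h3 : 8 * D + 8 ≤ L := by omega
    nlinarith
  obtain ⟨z0, hz0⟩ := exists_nat_ge (1 / η + 1)
  have c3 : ∀ᶠ j : ℕ in atTop, max z0 1 ≤ Nat.log 2 (j / 4) :=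
    log_tendsto.eventually_ge_atTop _
  have c4 : ∀ᶠ j : ℕ in atTop, 3 ≤ η * (2 * 2 ^ j + 1 : ℕ) := by
    obtain ⟨n0, hn0⟩ := exists_nat_ge (3 / η)
    filter_upwards [eventually_ge_atTop n0] with j hj
    have h1 : j < 2 ^ j := Nat.lt_two_pow_self
    have h2 : (n0 : ℝ) ≤ (2 * 2 ^ j + 1 : ℕ) := by
      have : n0 ≤ 2 * 2 ^ j + 1 := by omega
      exact_mod_cast this
    have h3 := hn0.trans h2
    rw [div_le_iff₀ hη0] at h3
    linarith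
  obtain ⟨j₀, hj₀⟩ := eventually_atTop.1 ((c1.and c2).and (eventually_ge_atTop 1))
  obtain ⟨E, hE⟩ : ∃ E : ℕ → Set (ℕ → Bool), E = fun j =>
    {ω | η * (2 * 2 ^ j + 1 : ℕ) < (nbad g Q T D w η L j ω : ℝ)} := ⟨_, rfl⟩
  have hEj : ∀ j, j₀ ≤ j → coins (E j) ≤ ENNReal.ofReal ((L + 1) / η * (1 / (j : ℝ) ^ 2)) := by
    intro j hj
    obtain ⟨⟨d1, d2⟩, d3⟩ := hj₀ j hj
    rw [hE]
    refine (nbad_prob hM5 g Q hQ T D hT w hw η hη0 L j (2 * (Nat.log 2 j + 1)) (by omega)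
      d2 d1).trans ?_
    apply ENNReal.ofReal_le_ofReal
    have h1 := M6.exp_le j d3
    calc (L + 1) * Real.exp (-((2 * (Nat.log 2 j + 1) : ℕ) : ℝ)) / η
        = (L + 1) / η * Real.exp (-((2 * (Nat.log 2 j + 1) : ℕ) : ℝ)) := by ring
      _ ≤ (L + 1) / η * (1 / (j : ℝ) ^ 2) := mul_le_mul_of_nonneg_left h1 (by positivity)
  have hBC := ae_eventually_notMem (μ := coins) (s := fun j => if j₀ ≤ j then E j else ∅) (by
    have hle : ∀ j : ℕ, coins (if j₀ ≤ j then E j else ∅) ≤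
        ENNReal.ofReal ((L + 1) / η * (1 / (j : ℝ) ^ 2)) := by
      intro j
      split_ifs with h
      · exact hEj j h
      · rw [measure_empty]; exact bot_le
    have hsum : Summable (fun j : ℕ => ((L : ℝ) + 1) / η * (1 / (j : ℝ) ^ 2)) :=
      (Real.summable_one_div_nat_pow.2 (by norm_num)).mul_left _
    refine ne_top_of_le_ne_top ?_ (ENNReal.tsum_le_tsum hle)
    rw [← ENNReal.ofReal_tsum_of_nonneg (fun j => by positivity) hsum]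
    exact ENNReal.ofReal_ne_top)
  filter_upwards [hBC] with ω hω
  filter_upwards [hω, eventually_ge_atTop j₀, c3, c4] with j hj hjj d3 d4 c e
  rw [if_pos hjj, hE] at hj
  simp only [Set.mem_ofPred_eq, not_lt] at hj
  have hmain := total_le g Q T D w hw η hη0 L hL1 j ω c e
  have hexc := exc_card Q T j ((le_max_right _ _).trans d3)
  obtain ⟨x, hx⟩ : ∃ x : ℕ, x = 2 * 2 ^ j + 1 := ⟨_, rfl⟩
  rw [← hx] at hmain hj d4
  have hxr : (x : ℝ) = 2 * 2 ^ j + 1 := by rw [hx]; push_cast; rfl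
  have hp : (1 : ℝ) ≤ 2 ^ j := one_le_pow₀ (by norm_num)
  have hx0 : (0 : ℝ) < x := by rw [hxr]; positivity
  have h1 : 2 * (2 : ℝ) ^ j / (Nat.log 2 (j / 4) : ℝ) ^ 2 ≤ η * x := by
    have hz : (1 / η + 1 : ℝ) ≤ (Nat.log 2 (j / 4) : ℝ) :=
      hz0.trans (by exact_mod_cast (le_max_left _ _).trans d3)
    have hη' : 0 < 1 / η := by positivity
    have hz2 : 1 / η ≤ (Nat.log 2 (j / 4) : ℝ) ^ 2 := by nlinarith
    rw [div_le_iff₀ (by nlinarith)]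
    have h5 : 1 ≤ η * (Nat.log 2 (j / 4) : ℝ) ^ 2 := by
      rw [div_le_iff₀ hη0] at hz2
      linarith
    have h6 : η * x * (Nat.log 2 (j / 4) : ℝ) ^ 2 = x * (η * (Nat.log 2 (j / 4) : ℝ) ^ 2) := by
      ring
    rw [h6]
    have h7 : (x : ℝ) * 1 ≤ x * (η * (Nat.log 2 (j / 4) : ℝ) ^ 2) :=
      mul_le_mul_of_nonneg_left h5 hx0.le
    linarith
  have h2 : (x : ℝ) / L ≤ η * x := by
    have := mul_le_mul_of_nonneg_right hLη hx0.le
    rw [div_mul_eq_mul_div, one_mul] at this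
    exact this
  have h3 : ((Exc Q T j).card : ℝ) + nbad g Q T D w η L j ω + 2 * (η * x + x / L + 1) ≤
      7 * η * x := by linarith
  refine hmain.trans ?_
  refine (mul_le_mul_of_nonneg_left h3 hx0.le).trans ?_
  have h4 : (x : ℝ) ≤ 3 * 2 ^ j := by rw [hxr]; linarith
  have h5 : (x : ℝ) * x ≤ (3 * 2 ^ j) * (3 * 2 ^ j) := mul_le_mul h4 h4 hx0.le (by positivity)
  have h6 : (4 : ℝ) ^ j = 2 ^ j * 2 ^ j := by
    rw [← mul_pow]
    norm_num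
  rw [h6]
  have h7 : (x : ℝ) * (7 * η * x) = 7 * η * (x * x) := by ring
  rw [h7]
  have h8 := mul_le_mul_of_nonneg_left h5 (by positivity : (0 : ℝ) ≤ 7 * η)
  rw [hη] at h8 ⊢
  linarith

theorem as_total (hM5 : StmM5) (g : ℕ → ℤˣ) (Q : Set ℕ) (hQ : ∀ q ∈ Q, q.Prime) (T : ℤ[X])
    (D : ℕ) (hT : T.natDegree ≤ D) (w : ℤ → ℤ → ℝ) (hw : ∀ v u, |w v u| ≤ 1)
    (hThick : Thick {q | q ∈ Q ∧ SimpleRoot T q}) :
    ∀ᵐ ω ∂coins, ∀ ε : ℝ, 0 < ε → ∀ᶠ j : ℕ in atTop, ∀ c e : ℤ → ℤ,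
      ∑ v ∈ Icc (-((2 ^ j : ℕ) : ℤ)) (2 ^ j : ℕ), |inner g Q T D w ω (2 ^ j) v (c v) (e v)| ≤
        ε * 4 ^ j := by
  have h1 : ∀ᵐ ω ∂coins, ∀ i : ℕ, ∀ᶠ j : ℕ in atTop, ∀ c e : ℤ → ℤ,
      ∑ v ∈ Icc (-((2 ^ j : ℕ) : ℤ)) (2 ^ j : ℕ), |inner g Q T D w ω (2 ^ j) v (c v) (e v)| ≤
        (1 / ((i : ℝ) + 1)) * 4 ^ j := by
    rw [ae_all_iff]
    intro i
    exact one_eps hM5 g Q hQ T D hT w hw hThick _ (by positivity)
  filter_upwards [h1] with ω hω ε hε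
  obtain ⟨i, hi⟩ := exists_nat_one_div_lt hε
  filter_upwards [hω i] with j hj c e
  exact (hj c e).trans (mul_le_mul_of_nonneg_right hi.le (by positivity))

end Pool.Agent.TH573.BF
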