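import Pool.Agent.TH573.BF.Inner

/-!
Almost surely almost all slices cancel.
-/

set_option autoImplicit false

namespace Pool.Agent.TH573.BF

open Finset MeasureTheory Filter Polynomial
open scoped ENNReal
open Pool.Agent.H220M

/-- the bad set of the slice `v` at the scale `2 ^ j` -/
def BadV (g : ℕ → ℤˣ) (Q : Set ℕ) (T : ℤ[X]) (D : ℕ) (w : ℤ → ℤ → ℝ) (η : ℝ) (L j : ℕ) (v : ℤ) :
    Set (ℕ → Bool) :=
  Bad g Q (Fv T D (2 ^ j) v) (fun m : ℕ => w v ((m : ℤ) - (2 ^ j : ℕ))) η (2 * 2 ^ j + 1) L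

open Classical in
/-- the number of the bad slices -/
noncomputable def nbad (g : ℕ → ℤˣ) (Q : Set ℕ) (T : ℤ[X]) (D : ℕ) (w : ℤ → ℤ → ℝ) (η : ℝ)
    (L j : ℕ) (ω : ℕ → Bool) : ℕ :=
  ((Icc (-((2 ^ j : ℕ) : ℤ)) (2 ^ j : ℕ) \ Exc Q T j).filter
    (fun v => ω ∈ BadV g Q T D w η L j v)).card

theorem card_box (j : ℕ) : (Icc (-((2 ^ j : ℕ) : ℤ)) (2 ^ j : ℕ)).card = 2 * 2 ^ j + 1 := by
  rw [Int.card_Icc]
  omega

theorem total_le (g : ℕ → ℤˣ) (Q : Set ℕ) (T : ℤ[X]) (D : ℕ) (w : ℤ → ℤ → ℝ)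
    (hw : ∀ v u, |w v u| ≤ 1) (η : ℝ) (hη : 0 < η) (L : ℕ) (hL : 1 ≤ L) (j : ℕ) (ω : ℕ → Bool)
    (c e : ℤ → ℤ) :
    ∑ v ∈ Icc (-((2 ^ j : ℕ) : ℤ)) (2 ^ j : ℕ), |inner g Q T D w ω (2 ^ j) v (c v) (e v)| ≤
      (2 * 2 ^ j + 1 : ℕ) * ((Exc Q T j).card + nbad g Q T D w η L j ω +
        2 * (η * (2 * 2 ^ j + 1 : ℕ) + (2 * 2 ^ j + 1 : ℕ) / L + 1)) := by
  classical
  obtain ⟨x, hx⟩ : ∃ x : ℕ, x = 2 * 2 ^ j + 1 := ⟨_, rfl⟩
  obtain ⟨κ, hκ⟩ : ∃ κ : ℝ, κ = 2 * (η * (x : ℕ) + (x : ℕ) / L + 1) := ⟨_, rfl⟩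
  have hκ0 : 0 ≤ κ := by rw [hκ]; positivity
  have h1 : ∀ v ∈ Icc (-((2 ^ j : ℕ) : ℤ)) (2 ^ j : ℕ),
      |inner g Q T D w ω (2 ^ j) v (c v) (e v)| ≤
      (if v ∈ Exc Q T j then (x : ℝ) else 0) +
      (if v ∉ Exc Q T j ∧ ω ∈ BadV g Q T D w η L j v then (x : ℝ) else 0) + κ := by
    intro v _
    have ht := inner_trivial g Q T D w hw ω (2 ^ j) v (c v) (e v)
    rw [← hx] at ht
    by_cases hE : v ∈ Exc Q T j
    · rw [if_pos hE, if_neg (fun h => h.1 hE)]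
      linarith
    · rw [if_neg hE]
      by_cases hB : ω ∈ BadV g Q T D w η L j v
      · rw [if_pos ⟨hE, hB⟩]
        linarith
      · rw [if_neg (fun h => hB h.2)]
        have := inner_good g Q T D w hw ω (2 ^ j) v η L hL hB (c v) (e v)
        rw [← hx, ← hκ] at this
        linarith
  refine (Finset.sum_le_sum h1).trans ?_
  rw [Finset.sum_add_distrib, Finset.sum_add_distrib, ← Finset.sum_filter, ← Finset.sum_filter,
    Finset.sum_const, Finset.sum_const, Finset.sum_const, card_box, nsmul_eq_mul, nsmul_eq_mul,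
    nsmul_eq_mul, ← hx, ← hκ]
  have h2 : (((Icc (-((2 ^ j : ℕ) : ℤ)) (2 ^ j : ℕ)).filter (fun v => v ∈ Exc Q T j)).card : ℝ) ≤
      (Exc Q T j).card := by
    have : (Icc (-((2 ^ j : ℕ) : ℤ)) (2 ^ j : ℕ)).filter (fun v => v ∈ Exc Q T j) ⊆
        Exc Q T j := by
      intro v hv
      exact (mem_filter.1 hv).2
    exact_mod_cast Finset.card_le_card this
  have h3 : (((Icc (-((2 ^ j : ℕ) : ℤ)) (2 ^ j : ℕ)).filter
      (fun v => v ∉ Exc Q T j ∧ ω ∈ BadV g Q T D w η L j v)).card : ℝ) ≤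
      nbad g Q T D w η L j ω := by
    unfold nbad
    have : (Icc (-((2 ^ j : ℕ) : ℤ)) (2 ^ j : ℕ)).filter
        (fun v => v ∉ Exc Q T j ∧ ω ∈ BadV g Q T D w η L j v) ⊆
        (Icc (-((2 ^ j : ℕ) : ℤ)) (2 ^ j : ℕ) \ Exc Q T j).filter
          (fun v => ω ∈ BadV g Q T D w η L j v) := by
      intro v hv
      rw [mem_filter] at hv
      rw [mem_filter, Finset.mem_sdiff]
      exact ⟨⟨hv.1, hv.2.1⟩, hv.2.2⟩
    exact_mod_cast Finset.card_le_card this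
  have hx0 : (0 : ℝ) ≤ x := Nat.cast_nonneg _
  nlinarith [mul_le_mul_of_nonneg_right h2 hx0, mul_le_mul_of_nonneg_right h3 hx0]

theorem badV_prob (hM5 : StmM5) (g : ℕ → ℤˣ) (Q : Set ℕ) (hQ : ∀ q ∈ Q, q.Prime) (T : ℤ[X])
    (D : ℕ) (hT : T.natDegree ≤ D) (w : ℤ → ℤ → ℝ) (hw : ∀ v u, |w v u| ≤ 1) (η : ℝ) (hη : 0 < η)
    (L j s : ℕ) (hs : 1 ≤ s) (h1 : 4 * s * D ≤ (Nat.log 2 (j / 4)) ^ 2)
    (h2 : 4 * Real.log (2 / η) + 3 ≤ ∑ q ∈ Q0 Q T j, (1 : ℝ) / q) (v : ℤ)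
    (hv : v ∈ Icc (-((2 ^ j : ℕ) : ℤ)) (2 ^ j : ℕ) \ Exc Q T j) :
    coins (BadV g Q T D w η L j v) ≤ ENNReal.ofReal ((L + 1) * Real.exp (-(s : ℝ))) := by
  classical
  rw [Finset.mem_sdiff] at hv
  obtain ⟨hv1, hv2⟩ := hv
  have hv3 : v ≠ 0 ∧ ∑ q ∈ (Q0 Q T j).filter (fun q : ℕ => (q : ℤ) ∣ v), (1 : ℝ) / q ≤ 1 := by
    unfold Exc at hv2
    rw [mem_filter] at hv2
    push Not at hv2
    exact hv2 hv1
  have hm : ∀ q ∈ Q0 Q T j, q ∈ Q ∧ SimpleRoot T q ∧ (Nat.log 2 (j / 4)) ^ 2 < q ∧ q ≤ j / 4 := by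
    intro q hq
    unfold Q0 at hq
    rw [Finset.mem_filter, Finset.mem_Icc] at hq
    exact ⟨hq.2.1.1, hq.2.1.2, hq.2.2, hq.1.2⟩
  unfold BadV
  apply bad_prob hM5 g Q hQ (Fv T D (2 ^ j) v) _ (fun m => hw _ _) η hη s hs _ L
    ((Q0 Q T j).filter (fun q : ℕ => ¬ (q : ℤ) ∣ v))
  · intro q hq
    rw [mem_filter] at hq
    obtain ⟨a, b, c, d⟩ := hm q hq.1
    refine ⟨a, sl_simple T D hT v q (hQ q a) hq.2 b _, ?_⟩
    have h3 := sl_comp_degree T D v (((2 ^ j : ℕ) : ℤ) + 1)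
    calc 4 * s * (Fv T D (2 ^ j) v).natDegree ≤ 4 * s * D := Nat.mul_le_mul_left _ h3
      _ ≤ q := h1.trans c.le
  · refine (M6.prod_le (j / 4) _ (fun q hq => ?_)).trans ?_
    · rw [mem_filter] at hq
      exact ⟨hQ q (hm q hq.1).1, (hm q hq.1).2.2.2⟩
    · have h3 : 2 ^ (4 * (j / 4)) ≤ 2 ^ j :=
        Nat.pow_le_pow_right (by norm_num) (Nat.mul_div_le j 4)
      omega
  · have h3 := Finset.sum_filter_add_sum_filter_not (Q0 Q T j) (fun q : ℕ => (q : ℤ) ∣ v)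
      (fun q => (1 : ℝ) / q)
    linarith [hv3.2]

theorem nbad_prob (hM5 : StmM5) (g : ℕ → ℤˣ) (Q : Set ℕ) (hQ : ∀ q ∈ Q, q.Prime) (T : ℤ[X])
    (D : ℕ) (hT : T.natDegree ≤ D) (w : ℤ → ℤ → ℝ) (hw : ∀ v u, |w v u| ≤ 1) (η : ℝ) (hη : 0 < η)
    (L j s : ℕ) (hs : 1 ≤ s) (h1 : 4 * s * D ≤ (Nat.log 2 (j / 4)) ^ 2)
    (h2 : 4 * Real.log (2 / η) + 3 ≤ ∑ q ∈ Q0 Q T j, (1 : ℝ) / q) :
    coins {ω | η * (2 * 2 ^ j + 1 : ℕ) < (nbad g Q T D w η L j ω : ℝ)} ≤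
      ENNReal.ofReal ((L + 1) * Real.exp (-(s : ℝ)) / η) := by
  classical
  obtain ⟨x, hx⟩ : ∃ x : ℕ, x = 2 * 2 ^ j + 1 := ⟨_, rfl⟩
  obtain ⟨V, hV⟩ : ∃ V, V = Icc (-((2 ^ j : ℕ) : ℤ)) (2 ^ j : ℕ) \ Exc Q T j := ⟨_, rfl⟩
  have hVx : V.card ≤ x := by
    rw [hV, hx, ← card_box]
    exact Finset.card_le_card Finset.sdiff_subset
  have hxpos : (0 : ℝ) < x := by
    have : 0 < x := by omega
    exact_mod_cast this
  obtain ⟨f, hf⟩ : ∃ f : (ℕ → Bool) → ℝ≥0∞, f = fun ω => ∑ v ∈ V,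
    (BadV g Q T D w η L j v).indicator (fun _ => (1 : ℝ≥0∞)) ω := ⟨_, rfl⟩
  have hmeas : ∀ v, MeasurableSet (BadV g Q T D w η L j v) := fun v => bad_meas _ _ _ _ _ _ _
  have hfm : Measurable f := by
    rw [hf]
    exact Finset.measurable_sum _ fun v _ => measurable_const.indicator (hmeas v)
  have hfn : ∀ ω, f ω = ((nbad g Q T D w η L j ω : ℕ) : ℝ≥0∞) := by
    intro ω
    rw [hf]
    unfold nbad
    rw [← hV, Finset.card_filter, Nat.cast_sum]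
    refine Finset.sum_congr rfl fun v _ => ?_
    by_cases h : ω ∈ BadV g Q T D w η L j v
    · rw [Set.indicator_of_mem h, if_pos h, Nat.cast_one]
    · rw [Set.indicator_of_notMem h, if_neg h, Nat.cast_zero]
  have hint : ∫⁻ ω, f ω ∂coins ≤ ENNReal.ofReal (x * ((L + 1) * Real.exp (-(s : ℝ)))) := by
    rw [hf, lintegral_finsetSum]
    · have e : ∀ v ∈ V, ∫⁻ ω, (BadV g Q T D w η L j v).indicator (fun _ => (1 : ℝ≥0∞)) ω ∂coins ≤
          ENNReal.ofReal ((L + 1) * Real.exp (-(s : ℝ))) := by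
        intro v hv
        rw [lintegral_indicator (hmeas v), lintegral_const, Measure.restrict_apply_univ, one_mul]
        exact badV_prob hM5 g Q hQ T D hT w hw η hη L j s hs h1 h2 v (by rw [← hV]; exact hv)
      refine (Finset.sum_le_sum e).trans ?_
      rw [Finset.sum_const, nsmul_eq_mul, ENNReal.ofReal_mul (Nat.cast_nonneg _),
        ENNReal.ofReal_natCast]
      exact mul_le_mul_left (by exact_mod_cast hVx) _
    · intro v _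
      exact measurable_const.indicator (hmeas v)
  have hηx : 0 < η * x := by positivity
  have hmarkov := meas_ge_le_lintegral_div (μ := coins) (f := f) hfm.aemeasurable
    (ε := ENNReal.ofReal (η * x)) (by
      rw [Ne, ENNReal.ofReal_eq_zero]
      linarith) ENNReal.ofReal_ne_top
  rw [← hx]
  refine le_trans (measure_mono ?_) (hmarkov.trans ?_)
  · intro ω hω
    simp only [Set.mem_ofPred_eq] at hω ⊢
    rw [hfn, ← ENNReal.ofReal_natCast]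
    exact ENNReal.ofReal_le_ofReal hω.le
  · refine (ENNReal.div_le_div_right hint _).trans ?_
    rw [← ENNReal.ofReal_div_of_pos hηx]
    apply ENNReal.ofReal_le_ofReal
    apply le_of_eq
    field_simp

end Pool.Agent.TH573.BF
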