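import Pool.Agent.TH573.BF.AS
import Pool.Agent.TH573.SM.Main

/-!
Binary forms: dehomogenization, factorization, reduction to the slices of a product `P * H`.
-/

set_option autoImplicit false

namespace Pool.Agent.TH573.BF

open Finset MeasureTheory Filter Polynomial
open Pool.Agent.H220M

/-- dehomogenization -/
noncomputable def deh (F : MvPolynomial (Fin 2) ℤ) : ℤ[X] := MvPolynomial.aeval ![X, 1] F

theorem hom_deh (F : MvPolynomial (Fin 2) ℤ) (d : ℕ) (hF : F.IsHomogeneous d) :
    (deh F).homogenize d = F := homogenize_eq_of_isHomogeneous hF rfl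

theorem deh_homogenize_degree (p : ℤ[X]) (d : ℕ) : (deh (p.homogenize d)).natDegree ≤ d := by
  unfold deh homogenize
  rw [map_sum]
  apply natDegree_sum_le_of_forall_le
  intro kl hkl
  rw [HasAntidiagonal.mem_antidiagonal] at hkl
  rw [MvPolynomial.aeval_monomial]
  rw [Finsupp.update_eq_add_single (by simp), Finsupp.prod_add_index', Finsupp.prod_single_index,
    Finsupp.prod_single_index]
  · simp only [Matrix.cons_val_zero, Matrix.cons_val_one, one_pow, mul_one]
    refine (natDegree_C_mul_X_pow_le _ _).trans ?_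
    omega
  all_goals simp [pow_add]

theorem deh_degree (F : MvPolynomial (Fin 2) ℤ) (d : ℕ) (hF : F.IsHomogeneous d) :
    (deh F).natDegree ≤ d := by
  have := deh_homogenize_degree (deh F) d
  rwa [hom_deh F d hF] at this

theorem homogenize_pow (P : ℤ[X]) (m : ℕ) :
    (P ^ m).homogenize (m * P.natDegree) = (P.homogenize P.natDegree) ^ m := by
  induction m with
  | zero => simp
  | succ m ih =>
    rw [pow_succ, add_mul, one_mul, homogenize_mul _ _ (natDegree_pow_le) le_rfl, ih, pow_succ]

/-- the values of the form -/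
theorem eval_form (F : MvPolynomial (Fin 2) ℤ) (d : ℕ) (hF : F.IsHomogeneous d)
    (P H : ℤ[X]) (k : ℕ) (hP : P ≠ 0) (hH : H ≠ 0) (h : deh F = P ^ (2 * k + 1) * H) :
    ∃ e : ℕ, ∀ u v : ℤ, MvPolynomial.eval ![u, v] F =
      (MvPolynomial.eval ![u, v] (P.homogenize P.natDegree)) ^ (2 * k + 1) *
      MvPolynomial.eval ![u, v] (H.homogenize H.natDegree) * v ^ e := by
  have h1 := deh_degree F d hF
  rw [h, natDegree_mul (pow_ne_zero _ hP) hH, natDegree_pow] at h1
  obtain ⟨e, he⟩ := Nat.exists_eq_add_of_le h1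
  refine ⟨e, fun u v => ?_⟩
  have h2 : F = (P.homogenize P.natDegree) ^ (2 * k + 1) * H.homogenize H.natDegree *
      MvPolynomial.X 1 ^ e := by
    rw [← hom_deh F d hF, h, he]
    have : P ^ (2 * k + 1) * H = P ^ (2 * k + 1) * H * 1 := by ring
    rw [this, homogenize_mul _ _ (natDegree_mul_le_of_le natDegree_pow_le le_rfl) (by simp),
      homogenize_mul _ _ natDegree_pow_le le_rfl, homogenize_pow, homogenize_one]
  conv_lhs => rw [h2]
  simp

theorem eval_slice (P H : ℤ[X]) (u v : ℤ) :
    (sl (P * H) (P.natDegree + H.natDegree) v).eval u =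
      MvPolynomial.eval ![u, v] (P.homogenize P.natDegree) *
      MvPolynomial.eval ![u, v] (H.homogenize H.natDegree) := by
  rw [← sl_homogenize, homogenize_mul _ _ le_rfl le_rfl, map_mul]

/-- the two dehomogenizations of a form which is not a constant times a square -/
theorem swap_or (F : MvPolynomial (Fin 2) ℤ) (d : ℕ) (hF : F.IsHomogeneous d)
    (hsq : ¬ ∃ (c : ℤ) (G : MvPolynomial (Fin 2) ℤ), F = MvPolynomial.C c * G ^ 2) :
    (¬ ∃ (c : ℤ) (G : ℤ[X]), deh F = C c * G ^ 2) ∨
    (¬ ∃ (c : ℤ) (G : ℤ[X]), deh (MvPolynomial.rename (Equiv.swap 0 1) F) = C c * G ^ 2) := by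
  by_contra hcon
  rw [not_or, not_not, not_not] at hcon
  obtain ⟨⟨c, G, h1⟩, ⟨c', G', h2⟩⟩ := hcon
  have hF0 : F ≠ 0 := by
    rintro rfl
    exact hsq ⟨0, 0, by simp⟩
  have hd0 : deh F ≠ 0 := by
    intro h
    apply hF0
    rw [← hom_deh F d hF, h, homogenize_zero]
  have hc : c ≠ 0 := by
    rintro rfl
    apply hd0
    rw [h1]
    simp
  have hG : G ≠ 0 := by
    rintro rfl
    apply hd0
    rw [h1]
    simp
  have hdeg : (deh F).natDegree = 2 * G.natDegree := by
    rw [h1, natDegree_C_mul hc, natDegree_pow]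
  have hle := deh_degree F d hF
  rw [hdeg] at hle
  obtain ⟨e, he⟩ := Nat.exists_eq_add_of_le hle
  have hFe : F = MvPolynomial.C c * (G.homogenize G.natDegree) ^ 2 * MvPolynomial.X 1 ^ e := by
    rw [← hom_deh F d hF, h1, he, homogenize_C_mul]
    have : G ^ 2 = G ^ 2 * 1 := by ring
    rw [this, homogenize_mul _ _ natDegree_pow_le (by simp), homogenize_pow, homogenize_one]
    ring
  rcases Nat.even_or_odd e with ho | ho
  · obtain ⟨m, hm⟩ := ho
    apply hsq
    refine ⟨c, G.homogenize G.natDegree * MvPolynomial.X 1 ^ m, ?_⟩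
    rw [hFe, hm]
    ring
  · -- the other dehomogenization has odd degree
    have h3 : deh (MvPolynomial.rename (Equiv.swap 0 1) F) =
        C c * (deh (MvPolynomial.rename (Equiv.swap 0 1) (G.homogenize G.natDegree))) ^ 2 *
          X ^ e := by
      rw [hFe]
      unfold deh
      simp
    set A := deh (MvPolynomial.rename (Equiv.swap 0 1) (G.homogenize G.natDegree)) with hA
    have hA0 : A ≠ 0 := by
      intro h
      have h4 : MvPolynomial.rename (Equiv.swap (0 : Fin 2) 1) (G.homogenize G.natDegree) = 0 := by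
        have h5 : (MvPolynomial.rename (Equiv.swap (0 : Fin 2) 1)
            (G.homogenize G.natDegree)).IsHomogeneous G.natDegree :=
          (isHomogeneous_homogenize G).rename_isHomogeneous
        rw [← hom_deh _ _ h5, ← hA, h, homogenize_zero]
      have h6 := MvPolynomial.rename_injective _ (Equiv.swap (0 : Fin 2) 1).injective
        (h4.trans (map_zero _).symm)
      exact hG (eq_zero_of_homogenize_eq_zero le_rfl h6)
    have h7 : (deh (MvPolynomial.rename (Equiv.swap 0 1) F)).natDegree = 2 * A.natDegree + e := by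
      rw [h3, natDegree_mul (mul_ne_zero (C_ne_zero.2 hc) (pow_ne_zero _ hA0))
        (pow_ne_zero _ X_ne_zero), natDegree_C_mul hc, natDegree_pow, natDegree_X_pow]
    have h8 : deh (MvPolynomial.rename (Equiv.swap 0 1) F) ≠ 0 := by
      intro h
      rw [h3] at h
      exact (mul_ne_zero (mul_ne_zero (C_ne_zero.2 hc) (pow_ne_zero _ hA0))
        (pow_ne_zero _ X_ne_zero)) h
    have h9 : (deh (MvPolynomial.rename (Equiv.swap 0 1) F)).natDegree = 2 * G'.natDegree := by
      have hc' : c' ≠ 0 := by
        rintro rfl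
        apply h8
        rw [h2]
        simp
      rw [h2, natDegree_C_mul hc', natDegree_pow]
    obtain ⟨m, hm⟩ := ho
    omega

theorem eval_swap (F : MvPolynomial (Fin 2) ℤ) (u v : ℤ) :
    MvPolynomial.eval ![u, v] (MvPolynomial.rename (Equiv.swap 0 1) F) =
      MvPolynomial.eval ![v, u] F := by
  rw [MvPolynomial.eval_rename]
  congr 2
  funext i
  fin_cases i <;> simp

end Pool.Agent.TH573.BF
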