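import Pool.Agent.TH573.BF.Scale

/-!
Sums over intervals of a slice, and the number of exceptional slices.
-/

set_option autoImplicit false

namespace Pool.Agent.TH573.BF

open Finset MeasureTheory Filter Polynomial
open scoped ENNReal
open Pool.Agent.H220M

/-- the slice as a polynomial in the shifted variable -/
noncomputable def Fv (T : ℤ[X]) (D : ℕ) (n : ℕ) (v : ℤ) : ℤ[X] :=
  (sl T D v).comp (X - C ((n : ℤ) + 1))

theorem Fv_eval (T : ℤ[X]) (D : ℕ) (n : ℕ) (v : ℤ) (m : ℤ) :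
    (Fv T D n v).eval (m + 1) = (sl T D v).eval (m - n) := by
  unfold Fv
  rw [eval_comp]
  simp only [eval_sub, eval_X, eval_C]
  congr 1
  ring

/-- the sum over an interval of the slice -/
noncomputable def inner (g : ℕ → ℤˣ) (Q : Set ℕ) (T : ℤ[X]) (D : ℕ) (w : ℤ → ℤ → ℝ)
    (ω : ℕ → Bool) (n : ℕ) (v c e : ℤ) : ℝ :=
  ∑ u ∈ (Icc (-(n : ℤ)) n).filter (fun u => c ≤ u ∧ u ≤ e), w v u * sg g Q ω ((sl T D v).eval u)

theorem sum_shift (n : ℕ) (φ : ℤ → ℝ) :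
    ∑ u ∈ Icc (-(n : ℤ)) n, φ u = ∑ m ∈ range (2 * n + 1), φ ((m : ℤ) - n) := by
  symm
  apply Finset.sum_nbij' (fun m : ℕ => (m : ℤ) - n) (fun u : ℤ => (u + n).toNat)
  · intro m hm
    rw [mem_range] at hm
    rw [mem_Icc]
    constructor <;> omega
  · intro u hu
    rw [mem_Icc] at hu
    rw [mem_range]
    omega
  · intro m _
    simp
  · intro u hu
    rw [mem_Icc] at hu
    show ((u + n).toNat : ℤ) - n = u
    omega
  · intro m _
    rfl

theorem inner_trivial (g : ℕ → ℤˣ) (Q : Set ℕ) (T : ℤ[X]) (D : ℕ) (w : ℤ → ℤ → ℝ)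
    (hw : ∀ v u, |w v u| ≤ 1) (ω : ℕ → Bool) (n : ℕ) (v c e : ℤ) :
    |inner g Q T D w ω n v c e| ≤ (2 * n + 1 : ℕ) := by
  unfold inner
  calc _ ≤ ∑ u ∈ (Icc (-(n : ℤ)) n).filter (fun u => c ≤ u ∧ u ≤ e),
        |w v u * sg g Q ω ((sl T D v).eval u)| := Finset.abs_sum_le_sum_abs _ _
    _ ≤ ∑ u ∈ (Icc (-(n : ℤ)) n).filter (fun u => c ≤ u ∧ u ≤ e), (1 : ℝ) := by
        apply Finset.sum_le_sum
        intro u _
        rw [abs_mul, sg_abs, mul_one]
        exact hw v u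
    _ ≤ ∑ u ∈ Icc (-(n : ℤ)) n, (1 : ℝ) :=
        Finset.sum_le_sum_of_subset_of_nonneg (Finset.filter_subset _ _)
          (fun _ _ _ => zero_le_one)
    _ = (2 * n + 1 : ℕ) := by
        rw [Finset.sum_const, Int.card_Icc, nsmul_eq_mul, mul_one]
        congr 1
        omega

theorem inner_good (g : ℕ → ℤˣ) (Q : Set ℕ) (T : ℤ[X]) (D : ℕ) (w : ℤ → ℤ → ℝ)
    (hw : ∀ v u, |w v u| ≤ 1) (ω : ℕ → Bool) (n : ℕ) (v : ℤ) (η : ℝ) (L : ℕ) (hL : 1 ≤ L)
    (hω : ω ∉ Bad g Q (Fv T D n v) (fun m : ℕ => w v ((m : ℤ) - n)) η (2 * n + 1) L) (c e : ℤ) :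
    |inner g Q T D w ω n v c e| ≤
      2 * (η * (2 * n + 1 : ℕ) + (2 * n + 1 : ℕ) / L + 1) := by
  have hη0 : 0 ≤ η * (2 * n + 1 : ℕ) + (2 * n + 1 : ℕ) / L + 1 :=
    (abs_nonneg _).trans (good_pre g Q (Fv T D n v) (fun m : ℕ => w v ((m : ℤ) - n))
      (fun m => hw _ _) η (2 * n + 1) L hL ω hω 0 (Nat.zero_le _))
  obtain ⟨a, ha⟩ : ∃ a : ℕ → ℝ, a = fun m : ℕ => w v ((m : ℤ) - n) *
      sg g Q ω ((Fv T D n v).eval ((m : ℤ) + 1)) := ⟨_, rfl⟩
  have e1 : inner g Q T D w ω n v c e = ∑ m ∈ (range (2 * n + 1)).filter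
      (fun m : ℕ => c ≤ (m : ℤ) - n ∧ (m : ℤ) - n ≤ e), a m := by
    unfold inner
    rw [Finset.sum_filter, sum_shift, Finset.sum_filter]
    apply Finset.sum_congr rfl
    intro m _
    rw [ha]
    simp only [Fv_eval]
  have e2 : ∀ y, pre g Q (Fv T D n v) (fun m : ℕ => w v ((m : ℤ) - n)) ω y = ∑ m ∈ range y, a m := by
    intro y
    unfold pre
    rw [ha]
  obtain ⟨y1, hy1⟩ : ∃ y1, y1 = min (c + n).toNat (2 * n + 1) := ⟨_, rfl⟩
  obtain ⟨y2, hy2⟩ : ∃ y2, y2 = min (e + n + 1).toNat (2 * n + 1) := ⟨_, rfl⟩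
  have e3 : (range (2 * n + 1)).filter (fun m : ℕ => c ≤ (m : ℤ) - n ∧ (m : ℤ) - n ≤ e) =
      Ico y1 y2 := by
    ext m
    rw [mem_filter, mem_range, mem_Ico, hy1, hy2]
    constructor
    · rintro ⟨h1, h2, h3⟩
      constructor
      · omega
      · omega
    · rintro ⟨h1, h2⟩
      refine ⟨by omega, by omega, by omega⟩
  rw [e1, e3]
  by_cases h : y1 ≤ y2
  · have h1 := good_pre g Q (Fv T D n v) (fun m : ℕ => w v ((m : ℤ) - n))
      (fun m => hw _ _) η (2 * n + 1) L hL ω hω y1 (by omega)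
    have h2 := good_pre g Q (Fv T D n v) (fun m : ℕ => w v ((m : ℤ) - n))
      (fun m => hw _ _) η (2 * n + 1) L hL ω hω y2 (by omega)
    rw [e2] at h1 h2
    rw [Finset.sum_Ico_eq_sub _ h]
    calc |∑ m ∈ range y2, a m - ∑ m ∈ range y1, a m|
        ≤ |∑ m ∈ range y2, a m| + |∑ m ∈ range y1, a m| := abs_sub _ _
      _ ≤ _ := by linarith
  · rw [Finset.Ico_eq_empty (by omega)]
    simp only [Finset.sum_empty, abs_zero]
    linarith

open Classical in
/-- the window of primes at the scale `2 ^ j` -/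
noncomputable def Q0 (Q : Set ℕ) (T : ℤ[X]) (j : ℕ) : Finset ℕ :=
  (Icc 1 (j / 4)).filter (fun q => q ∈ {q | q ∈ Q ∧ SimpleRoot T q} ∧
    (Nat.log 2 (j / 4)) ^ 2 < q)

/-- the exceptional slices -/
noncomputable def Exc (Q : Set ℕ) (T : ℤ[X]) (j : ℕ) : Finset ℤ :=
  (Icc (-((2 ^ j : ℕ) : ℤ)) (2 ^ j : ℕ)).filter (fun v => v = 0 ∨
    1 < ∑ q ∈ (Q0 Q T j).filter (fun q : ℕ => (q : ℤ) ∣ v), (1 : ℝ) / q)

theorem count_mult (n q : ℕ) (hq : 0 < q) :
    ((((Icc (-(n : ℤ)) n).filter (fun v => v ≠ 0 ∧ (q : ℤ) ∣ v)).card : ℕ) : ℝ) ≤ 2 * n / q := by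
  have h1 : ((Icc (-(n : ℤ)) n).filter (fun v => v ≠ 0 ∧ (q : ℤ) ∣ v)) ⊆
      ((Icc 1 (n / q)).image (fun t : ℕ => (q : ℤ) * t)) ∪
      ((Icc 1 (n / q)).image (fun t : ℕ => -((q : ℤ) * t))) := by
    intro v hv
    rw [mem_filter, mem_Icc] at hv
    obtain ⟨⟨h1, h2⟩, h3, t, rfl⟩ := hv
    have hq' : (0 : ℤ) < q := by exact_mod_cast hq
    rw [mem_union, mem_image, mem_image]
    rcases lt_trichotomy t 0 with ht | ht | ht
    · right
      refine ⟨t.natAbs, ?_, ?_⟩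
      · rw [mem_Icc]
        refine ⟨by omega, ?_⟩
        rw [Nat.le_div_iff_mul_le hq]
        have h4 : ((t.natAbs * q : ℕ) : ℤ) ≤ n := by
          push_cast
          rw [abs_of_neg ht]
          linarith
        exact_mod_cast h4
      · have : ((t.natAbs : ℕ) : ℤ) = -t := by omega
        rw [this]
        ring
    · exact absurd (by rw [ht, mul_zero]) h3
    · left
      refine ⟨t.natAbs, ?_, ?_⟩
      · rw [mem_Icc]
        refine ⟨by omega, ?_⟩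
        rw [Nat.le_div_iff_mul_le hq]
        have h4 : ((t.natAbs * q : ℕ) : ℤ) ≤ n := by
          push_cast
          rw [abs_of_pos ht]
          linarith
        exact_mod_cast h4
      · have : ((t.natAbs : ℕ) : ℤ) = t := by omega
        rw [this]
  have h2 := (Finset.card_le_card h1).trans ((Finset.card_union_le _ _).trans
    (add_le_add Finset.card_image_le Finset.card_image_le))
  rw [Nat.card_Icc, Nat.add_sub_cancel] at h2
  have h3 : ((n / q : ℕ) : ℝ) ≤ (n : ℝ) / q := Nat.cast_div_le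
  calc _ ≤ ((n / q + n / q : ℕ) : ℝ) := by exact_mod_cast h2
    _ ≤ 2 * n / q := by
        push_cast
        have : 2 * (n : ℝ) / q = n / q + n / q := by ring
        rw [this]
        linarith

theorem exc_card (Q : Set ℕ) (T : ℤ[X]) (j : ℕ) (hz : 1 ≤ Nat.log 2 (j / 4)) :
    ((Exc Q T j).card : ℝ) ≤ 1 + 2 * 2 ^ j / (Nat.log 2 (j / 4) : ℝ) ^ 2 := by
  classical
  set N : Finset ℤ := (Icc (-((2 ^ j : ℕ) : ℤ)) (2 ^ j : ℕ)).filter (fun v => v ≠ 0 ∧
    1 < ∑ q ∈ (Q0 Q T j).filter (fun q : ℕ => (q : ℤ) ∣ v), (1 : ℝ) / q) with hN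
  set z := (Nat.log 2 (j / 4)) ^ 2 with hzdef
  have hz1 : 1 ≤ z := Nat.one_le_pow _ _ hz
  have h1 : Exc Q T j ⊆ {0} ∪ N := by
    intro v hv
    unfold Exc at hv
    rw [mem_filter] at hv
    rw [mem_union, mem_singleton, hN, mem_filter]
    by_cases h0 : v = 0
    · exact Or.inl h0
    · exact Or.inr ⟨hv.1, h0, hv.2.resolve_left h0⟩
  have h2 : ((Exc Q T j).card : ℝ) ≤ 1 + N.card := by
    have := (Finset.card_le_card h1).trans (Finset.card_union_le _ _)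
    rw [Finset.card_singleton] at this
    exact_mod_cast this
  have h3 : (N.card : ℝ) ≤ ∑ q ∈ Q0 Q T j, 2 * ((2 ^ j : ℕ) : ℝ) / (q : ℝ) ^ 2 := by
    calc (N.card : ℝ) = ∑ v ∈ N, (1 : ℝ) := by simp
      _ ≤ ∑ v ∈ N, ∑ q ∈ (Q0 Q T j).filter (fun q : ℕ => (q : ℤ) ∣ v), (1 : ℝ) / q := by
          apply Finset.sum_le_sum
          intro v hv
          rw [hN, mem_filter] at hv
          exact hv.2.2.le
      _ = ∑ v ∈ N, ∑ q ∈ Q0 Q T j, if (q : ℤ) ∣ v then (1 : ℝ) / q else 0 := by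
          apply Finset.sum_congr rfl
          intro v _
          rw [Finset.sum_filter]
      _ = ∑ q ∈ Q0 Q T j, ∑ v ∈ N, if (q : ℤ) ∣ v then (1 : ℝ) / q else 0 := Finset.sum_comm
      _ ≤ _ := by
          apply Finset.sum_le_sum
          intro q hq
          have hq1 : 0 < q := by
            unfold Q0 at hq
            rw [mem_filter, mem_Icc] at hq
            omega
          have hq1' : (0 : ℝ) < q := by exact_mod_cast hq1
          rw [← Finset.sum_filter, Finset.sum_const, nsmul_eq_mul]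
          have h4 : N.filter (fun v => (q : ℤ) ∣ v) ⊆
              (Icc (-((2 ^ j : ℕ) : ℤ)) (2 ^ j : ℕ)).filter (fun v => v ≠ 0 ∧ (q : ℤ) ∣ v) := by
            intro v hv
            rw [mem_filter, hN, mem_filter] at hv
            rw [mem_filter]
            exact ⟨hv.1.1, hv.1.2.1, hv.2⟩
          have h5 : ((N.filter (fun v => (q : ℤ) ∣ v)).card : ℝ) ≤ 2 * ((2 ^ j : ℕ) : ℝ) / q :=
            le_trans (by exact_mod_cast Finset.card_le_card h4) (count_mult (2 ^ j) q hq1)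
          calc ((N.filter (fun v => (q : ℤ) ∣ v)).card : ℝ) * (1 / q)
              ≤ 2 * ((2 ^ j : ℕ) : ℝ) / q * (1 / q) :=
                mul_le_mul_of_nonneg_right h5 (by positivity)
            _ = 2 * ((2 ^ j : ℕ) : ℝ) / (q : ℝ) ^ 2 := by
                field_simp
  have h6 : ∑ q ∈ Q0 Q T j, 2 * ((2 ^ j : ℕ) : ℝ) / (q : ℝ) ^ 2 ≤
      2 * ((2 ^ j : ℕ) : ℝ) * (z : ℝ)⁻¹ := by
    have h7 : ∑ q ∈ Q0 Q T j, ((q : ℝ) ^ 2)⁻¹ ≤ (z : ℝ)⁻¹ := by
      by_cases hzj : z ≤ j / 4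
      · calc ∑ q ∈ Q0 Q T j, ((q : ℝ) ^ 2)⁻¹ ≤ ∑ q ∈ Ioc z (j / 4), ((q : ℝ) ^ 2)⁻¹ := by
              apply Finset.sum_le_sum_of_subset_of_nonneg
              · intro q hq
                unfold Q0 at hq
                rw [mem_filter, mem_Icc] at hq
                rw [mem_Ioc]
                exact ⟨hq.2.2, hq.1.2⟩
              · intro q _ _
                positivity
          _ ≤ (z : ℝ)⁻¹ - ((j / 4 : ℕ) : ℝ)⁻¹ := sum_Ioc_inv_sq_le_sub (by omega) hzj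
          _ ≤ (z : ℝ)⁻¹ := by
              have : (0 : ℝ) ≤ ((j / 4 : ℕ) : ℝ)⁻¹ := by positivity
              linarith
      · have : Q0 Q T j = ∅ := by
          unfold Q0
          rw [Finset.filter_eq_empty_iff]
          intro q hq
          rw [mem_Icc] at hq
          push Not
          intro _
          omega
        rw [this]
        simp
    calc ∑ q ∈ Q0 Q T j, 2 * ((2 ^ j : ℕ) : ℝ) / (q : ℝ) ^ 2 =
        2 * ((2 ^ j : ℕ) : ℝ) * ∑ q ∈ Q0 Q T j, ((q : ℝ) ^ 2)⁻¹ := by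
          rw [Finset.mul_sum]
          apply Finset.sum_congr rfl
          intro q _
          rw [div_eq_mul_inv]
      _ ≤ _ := mul_le_mul_of_nonneg_left h7 (by positivity)
  have h8 : 2 * ((2 ^ j : ℕ) : ℝ) * (z : ℝ)⁻¹ = 2 * 2 ^ j / (Nat.log 2 (j / 4) : ℝ) ^ 2 := by
    rw [hzdef]
    push_cast
    rw [div_eq_mul_inv]
  linarith

end Pool.Agent.TH573.BF
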