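import Pool.Agent.TH573.BF.One

/-!
All binary forms, lattices, convex regions.
-/

set_option autoImplicit false

namespace Pool.Agent.TH573.BF

open Finset MeasureTheory Filter Polynomial
open Pool.Agent.H220M Pool.Agent.TH573.SM

theorem interval (X : ℕ) (R : ℤ → Prop) (hR : ∀ a b c, a ≤ b → b ≤ c → R a → R c → R b) :
    ∃ c e : ℤ, ∀ u ∈ Icc (-(X : ℤ)) X, (R u ↔ c ≤ u ∧ u ≤ e) := by
  classical
  obtain ⟨S, hS⟩ : ∃ S, S = (Icc (-(X : ℤ)) X).filter R := ⟨_, rfl⟩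
  rcases S.eq_empty_or_nonempty with h0 | h0
  · refine ⟨1, 0, fun u hu => ?_⟩
    constructor
    · intro h
      have : u ∈ S := by rw [hS, mem_filter]; exact ⟨hu, h⟩
      rw [h0] at this
      simp at this
    · rintro ⟨h1, h2⟩
      omega
  · refine ⟨S.min' h0, S.max' h0, fun u hu => ?_⟩
    constructor
    · intro h
      have : u ∈ S := by rw [hS, mem_filter]; exact ⟨hu, h⟩
      exact ⟨S.min'_le u this, S.le_max' u this⟩
    · rintro ⟨h1, h2⟩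
      have h3 := S.min'_mem h0
      have h4 := S.max'_mem h0
      have h5 : ∀ x, x ∈ S → R x := by
        intro x hx
        rw [hS, mem_filter] at hx
        exact hx.2
      exact hR _ _ _ h1 h2 (h5 _ h3) (h5 _ h4)

theorem conv_aux (K : Set (ℝ × ℝ)) (hK : Convex ℝ K) (A B C : ℝ × ℝ) (s : ℝ) (h0 : 0 ≤ s)
    (h1 : s ≤ 1) (hA : A ∈ K) (hC : C ∈ K) (h : B = (1 - s) • A + s • C) : B ∈ K := by
  rw [h]
  exact hK hA hC (by linarith) h0 (by ring)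

theorem conv_row1 (K : Set (ℝ × ℝ)) (hK : Convex ℝ K) (v : ℤ) (a b c : ℤ) (hab : a ≤ b)
    (hbc : b ≤ c) (h1 : ((a : ℝ), (v : ℝ)) ∈ K) (h2 : ((c : ℝ), (v : ℝ)) ∈ K) :
    ((b : ℝ), (v : ℝ)) ∈ K := by
  rcases eq_or_lt_of_le (hab.trans hbc) with h | h
  · have : b = a := by omega
    rw [this]
    exact h1
  · have hc : (0 : ℝ) < c - a := by
      have : (a : ℝ) < c := by exact_mod_cast h
      linarith
    have hab' : (a : ℝ) ≤ b := by exact_mod_cast hab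
    have hbc' : (b : ℝ) ≤ c := by exact_mod_cast hbc
    refine conv_aux K hK ((a : ℝ), (v : ℝ)) _ ((c : ℝ), (v : ℝ)) ((b - a) / (c - a)) ?_ ?_ h1 h2 ?_
    · exact div_nonneg (by linarith) hc.le
    · rw [div_le_one hc]
      linarith
    · ext
      · simp
        field_simp
        ring
      · simp
        ring

theorem conv_row2 (K : Set (ℝ × ℝ)) (hK : Convex ℝ K) (v : ℤ) (a b c : ℤ) (hab : a ≤ b)
    (hbc : b ≤ c) (h1 : ((v : ℝ), (a : ℝ)) ∈ K) (h2 : ((v : ℝ), (c : ℝ)) ∈ K) :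
    ((v : ℝ), (b : ℝ)) ∈ K := by
  rcases eq_or_lt_of_le (hab.trans hbc) with h | h
  · have : b = a := by omega
    rw [this]
    exact h1
  · have hc : (0 : ℝ) < c - a := by
      have : (a : ℝ) < c := by exact_mod_cast h
      linarith
    have hab' : (a : ℝ) ≤ b := by exact_mod_cast hab
    have hbc' : (b : ℝ) ≤ c := by exact_mod_cast hbc
    refine conv_aux K hK ((v : ℝ), (a : ℝ)) _ ((v : ℝ), (c : ℝ)) ((b - a) / (c - a)) ?_ ?_ h1 h2 ?_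
    · exact div_nonneg (by linarith) hc.le
    · rw [div_le_one hc]
      linarith
    · ext
      · simp
        ring
      · simp
        field_simp
        ring

open Classical in
/-- the statement for one function and one form -/
def Cancel (f : ℕ →*₀ ℤ) (w : ℤ → ℤ → ℝ) (F : MvPolynomial (Fin 2) ℤ) (N a b : ℤ) : Prop :=
  ∀ ε : ℝ, 0 < ε → ∃ X₀ : ℕ, ∀ X : ℕ, X₀ ≤ X → ∀ K : Set (ℝ × ℝ), Convex ℝ K →
    |∑ z ∈ (Icc (-(X : ℤ)) X ×ˢ Icc (-(X : ℤ)) X).filter (fun z : ℤ × ℤ =>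
        z.1 ≡ a [ZMOD N] ∧ z.2 ≡ b [ZMOD N] ∧ ((z.1 : ℝ), (z.2 : ℝ)) ∈ K),
      w z.1 z.2 * ((f (MvPolynomial.eval ![z.1, z.2] F).natAbs : ℤ) : ℝ)| ≤ ε * (X : ℝ) ^ 2

open Classical in
theorem fin_eq (X : ℕ) (N a b : ℤ) (K : Set (ℝ × ℝ)) (φ : ℤ → ℤ → ℝ) :
    ∑ z ∈ (Icc (-(X : ℤ)) X ×ˢ Icc (-(X : ℤ)) X).filter (fun z : ℤ × ℤ =>
        z.1 ≡ a [ZMOD N] ∧ z.2 ≡ b [ZMOD N] ∧ ((z.1 : ℝ), (z.2 : ℝ)) ∈ K), φ z.1 z.2 =
    ∑ u ∈ Icc (-(X : ℤ)) X, ∑ v ∈ (Icc (-(X : ℤ)) X).filter (fun v : ℤ =>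
      ((u : ℝ), (v : ℝ)) ∈ K), if u ≡ a [ZMOD N] ∧ v ≡ b [ZMOD N] then φ u v else 0 := by
  rw [Finset.sum_filter, Finset.sum_product]
  apply Finset.sum_congr rfl
  intro u _
  rw [Finset.sum_filter]
  apply Finset.sum_congr rfl
  intro v _
  by_cases h1 : u ≡ a [ZMOD N] <;> by_cases h2 : v ≡ b [ZMOD N] <;>
    by_cases h3 : ((u : ℝ), (v : ℝ)) ∈ K <;> simp [h1, h2, h3]

open Classical in
theorem fin_eq' (X : ℕ) (N a b : ℤ) (K : Set (ℝ × ℝ)) (φ : ℤ → ℤ → ℝ) :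
    ∑ z ∈ (Icc (-(X : ℤ)) X ×ˢ Icc (-(X : ℤ)) X).filter (fun z : ℤ × ℤ =>
        z.1 ≡ a [ZMOD N] ∧ z.2 ≡ b [ZMOD N] ∧ ((z.1 : ℝ), (z.2 : ℝ)) ∈ K), φ z.1 z.2 =
    ∑ v ∈ Icc (-(X : ℤ)) X, ∑ u ∈ (Icc (-(X : ℤ)) X).filter (fun u : ℤ =>
      ((u : ℝ), (v : ℝ)) ∈ K), if u ≡ a [ZMOD N] ∧ v ≡ b [ZMOD N] then φ u v else 0 := by
  rw [Finset.sum_filter, Finset.sum_product_right]
  apply Finset.sum_congr rfl
  intro v _
  rw [Finset.sum_filter]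
  apply Finset.sum_congr rfl
  intro u _
  by_cases h1 : u ≡ a [ZMOD N] <;> by_cases h2 : v ≡ b [ZMOD N] <;>
    by_cases h3 : ((u : ℝ), (v : ℝ)) ∈ K <;> simp [h1, h2, h3]

theorem form_cancel (hM5 : StmM5) (g : ℕ →*₀ ℤ) (g' : ℕ → ℤˣ)
    (hg' : ∀ m : ℕ, m ≠ 0 → g m = ((g' m : ℤˣ) : ℤ))
    (F : MvPolynomial (Fin 2) ℤ) (d : ℕ) (hF : F.IsHomogeneous d)
    (hsq : ¬ ∃ (c : ℤ) (G : MvPolynomial (Fin 2) ℤ), F = MvPolynomial.C c * G ^ 2)
    (w : ℤ → ℤ → ℝ) (hw : ∀ u v, |w u v| ≤ 1) (N a b : ℤ) :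
    ∀ᵐ ω ∂coins, ∀ f : ℕ →*₀ ℤ, IsModif g sparse ω f → Cancel f w F N a b := by
  classical
  rcases swap_or F d hF hsq with h | h
  · filter_upwards [one_form hM5 g g' hg' F d hF h
      (fun v u => if u ≡ a [ZMOD N] ∧ v ≡ b [ZMOD N] then w u v else 0) (fun v u => by
        split_ifs
        · exact hw u v
        · simp)] with ω hω f hf ε hε
    obtain ⟨X₀, hX₀⟩ := hω f hf ε hε
    refine ⟨X₀, fun X hX K hK => ?_⟩
    rw [fin_eq' X N a b K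
      (fun u v => w u v * ((f (MvPolynomial.eval ![u, v] F).natAbs : ℤ) : ℝ))]
    have hint : ∀ v : ℤ, ∃ c e : ℤ, ∀ u ∈ Icc (-(X : ℤ)) X,
        (((u : ℝ), (v : ℝ)) ∈ K ↔ c ≤ u ∧ u ≤ e) :=
      fun v => interval X (fun u => ((u : ℝ), (v : ℝ)) ∈ K)
        (fun a b c hab hbc h1 h2 => conv_row1 K hK v a b c hab hbc h1 h2)
    choose c e hce using hint
    refine le_trans (le_of_eq ?_) (hX₀ X hX c e)
    congr 1
    apply Finset.sum_congr rfl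
    intro v _
    rw [Finset.filter_congr (hce v)]
    apply Finset.sum_congr rfl
    intro u _
    split_ifs
    · rfl
    · rw [zero_mul]
  · filter_upwards [one_form hM5 g g' hg' (MvPolynomial.rename (Equiv.swap 0 1) F) d
      hF.rename_isHomogeneous h
      (fun u v => if u ≡ a [ZMOD N] ∧ v ≡ b [ZMOD N] then w u v else 0) (fun u v => by
        split_ifs
        · exact hw u v
        · simp)] with ω hω f hf ε hε
    obtain ⟨X₀, hX₀⟩ := hω f hf ε hε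
    refine ⟨X₀, fun X hX K hK => ?_⟩
    rw [fin_eq X N a b K
      (fun u v => w u v * ((f (MvPolynomial.eval ![u, v] F).natAbs : ℤ) : ℝ))]
    have hint : ∀ u : ℤ, ∃ c e : ℤ, ∀ v ∈ Icc (-(X : ℤ)) X,
        (((u : ℝ), (v : ℝ)) ∈ K ↔ c ≤ v ∧ v ≤ e) :=
      fun u => interval X (fun v => ((u : ℝ), (v : ℝ)) ∈ K)
        (fun a b c hab hbc h1 h2 => conv_row2 K hK u a b c hab hbc h1 h2)
    choose c e hce using hint
    refine le_trans (le_of_eq ?_) (hX₀ X hX c e)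
    congr 1
    apply Finset.sum_congr rfl
    intro u _
    rw [Finset.filter_congr (hce u)]
    apply Finset.sum_congr rfl
    intro v _
    rw [eval_swap]
    split_ifs
    · rfl
    · rw [zero_mul]

theorem countable_form : Countable (MvPolynomial (Fin 2) ℤ) := by
  rw [← Cardinal.mk_le_aleph0_iff]
  refine (MvPolynomial.cardinalMk_le_max).trans ?_
  simp

theorem main (g : ℕ →*₀ ℤ) (hg : ∀ p : ℕ, p.Prime → g p = 1 ∨ g p = -1)
    (w : ℕ → ℤ → ℤ → ℝ) (hw : ∀ s u v, |w s u v| ≤ 1) :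
    ∀ᵐ ω ∂coins, ∃! f : ℕ →*₀ ℤ, IsModif g sparse ω f ∧
      ∀ (d : ℕ) (F : MvPolynomial (Fin 2) ℤ), F.IsHomogeneous d →
        (¬ ∃ (c : ℤ) (G : MvPolynomial (Fin 2) ℤ), F = MvPolynomial.C c * G ^ 2) →
        ∀ (s : ℕ) (N a b : ℤ), Cancel f (w s) F N a b := by
  have hM5 : StmM5 := tM5 tM1 tM2 tM3 (tM4 tP2 tM4a)
  obtain ⟨g', hg'⟩ := exists_unit g hg
  have := countable_form
  have hall : ∀ᵐ ω ∂coins, ∀ (F : MvPolynomial (Fin 2) ℤ),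
      ((∃ d, F.IsHomogeneous d) ∧
        ¬ ∃ (c : ℤ) (G : MvPolynomial (Fin 2) ℤ), F = MvPolynomial.C c * G ^ 2) →
      ∀ (s : ℕ) (N a b : ℤ), ∀ f : ℕ →*₀ ℤ, IsModif g sparse ω f → Cancel f (w s) F N a b := by
    rw [ae_all_iff]; intro F
    by_cases hF : (∃ d, F.IsHomogeneous d) ∧
        ¬ ∃ (c : ℤ) (G : MvPolynomial (Fin 2) ℤ), F = MvPolynomial.C c * G ^ 2
    · obtain ⟨⟨d, hd⟩, hsq⟩ := hF
      have h1 : ∀ᵐ ω ∂coins, ∀ (s : ℕ) (N a b : ℤ), ∀ f : ℕ →*₀ ℤ, IsModif g sparse ω f →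
          Cancel f (w s) F N a b := by
        rw [ae_all_iff]; intro s
        rw [ae_all_iff]; intro N
        rw [ae_all_iff]; intro a
        rw [ae_all_iff]; intro b
        exact form_cancel hM5 g g' hg' F d hd hsq (w s) (hw s) N a b
      filter_upwards [h1] with ω hω _
      exact hω
    · filter_upwards with ω h
      exact absurd h hF
  filter_upwards [hall] with ω hω
  obtain ⟨f, hf, _⟩ := isModif_exists g g' hg' sparse ω
  exact ⟨f, ⟨hf, fun d F hd hF s N a b => hω F ⟨⟨d, hd⟩, hF⟩ s N a b f hf⟩,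
    fun f' hf' => isModif_unique g sparse ω f' f hf'.1 hf⟩

end Pool.Agent.TH573.BF
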