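import Pool.Agent.TH573.BF.Form

/-!
One form which is not a constant times a square after dehomogenization.
-/

set_option autoImplicit false

namespace Pool.Agent.TH573.BF

open Finset MeasureTheory Filter Polynomial
open Pool.Agent.H220M Pool.Agent.TH573.SM

/-- the value of the random function at the value of the form -/
theorem value (f : ℕ →*₀ ℤ) (a : ℕ → ℤˣ) (hfa : ∀ m : ℕ, m ≠ 0 → f m = ((a m : ℤˣ) : ℤ))
    (A B v : ℤ) (k e : ℕ) :
    f (A ^ (2 * k + 1) * B * v ^ e).natAbs = f v.natAbs ^ e * f (A * B).natAbs := by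
  rw [Int.natAbs_mul, Int.natAbs_mul, Int.natAbs_mul, Int.natAbs_pow, Int.natAbs_pow, map_mul,
    map_mul, map_mul, map_pow, map_pow]
  by_cases h0 : A.natAbs = 0
  · rw [h0, map_zero, zero_pow (by omega)]
    ring
  · have h1 : f A.natAbs ^ (2 * k + 1) = f A.natAbs := by
      rw [hfa _ h0, pow_succ, pow_mul]
      rcases Int.units_eq_one_or (a A.natAbs) with h1 | h1 <;> rw [h1] <;> simp
    rw [h1]
    ring

/-- one row -/
theorem row (g : ℕ → ℤˣ) (Q : Set ℕ) (ω : ℕ → Bool) (f : ℕ →*₀ ℤ)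
    (hfm : ∀ m : ℕ, m ≠ 0 → f m = ((modif g Q ω m : ℤˣ) : ℤ)) (F : MvPolynomial (Fin 2) ℤ)
    (P H : ℤ[X]) (k e : ℕ) (he : ∀ u v : ℤ, MvPolynomial.eval ![u, v] F =
      (MvPolynomial.eval ![u, v] (P.homogenize P.natDegree)) ^ (2 * k + 1) *
      MvPolynomial.eval ![u, v] (H.homogenize H.natDegree) * v ^ e)
    (w : ℤ → ℝ) (v : ℤ) (hv : v ≠ 0) (S : Finset ℤ) :
    |∑ u ∈ S, w u * ((f (MvPolynomial.eval ![u, v] F).natAbs : ℤ) : ℝ)| =
      |∑ u ∈ S, (if (sl (P * H) (P.natDegree + H.natDegree) v).eval u = 0 then 0 else w u) *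
        sg g Q ω ((sl (P * H) (P.natDegree + H.natDegree) v).eval u)| := by
  have h1 : ∀ u : ℤ, w u * ((f (MvPolynomial.eval ![u, v] F).natAbs : ℤ) : ℝ) =
      (((f v.natAbs) ^ e : ℤ) : ℝ) *
      ((if (sl (P * H) (P.natDegree + H.natDegree) v).eval u = 0 then 0 else w u) *
        sg g Q ω ((sl (P * H) (P.natDegree + H.natDegree) v).eval u)) := by
    intro u
    rw [he, value f _ hfm, ← eval_slice]
    split_ifs with h0
    · rw [h0]
      simp
    · rw [hfm _ (Int.natAbs_ne_zero.2 h0)]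
      unfold sg
      push_cast
      ring
  rw [Finset.sum_congr rfl (fun u _ => h1 u), ← Finset.mul_sum, abs_mul]
  have h2 : |(((f v.natAbs) ^ e : ℤ) : ℝ)| = 1 := by
    rw [hfm _ (Int.natAbs_ne_zero.2 hv)]
    push_cast
    rw [abs_pow, M6.unit_abs, one_pow]
  rw [h2, one_mul]

theorem one_form (hM5 : StmM5) (g : ℕ →*₀ ℤ) (g' : ℕ → ℤˣ)
    (hg' : ∀ m : ℕ, m ≠ 0 → g m = ((g' m : ℤˣ) : ℤ))
    (F : MvPolynomial (Fin 2) ℤ) (d : ℕ) (hF : F.IsHomogeneous d)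
    (hsq : ¬ ∃ (c : ℤ) (G : ℤ[X]), deh F = C c * G ^ 2)
    (w : ℤ → ℤ → ℝ) (hw : ∀ v u, |w v u| ≤ 1) :
    ∀ᵐ ω ∂coins, ∀ f : ℕ →*₀ ℤ, IsModif g sparse ω f → ∀ ε : ℝ, 0 < ε → ∃ X₀ : ℕ, ∀ X : ℕ,
      X₀ ≤ X → ∀ c e : ℤ → ℤ,
      |∑ v ∈ Icc (-(X : ℤ)) X, ∑ u ∈ (Icc (-(X : ℤ)) X).filter (fun u => c v ≤ u ∧ u ≤ e v),
        w v u * ((f (MvPolynomial.eval ![u, v] F).natAbs : ℤ) : ℝ)| ≤ ε * (X : ℝ) ^ 2 := by
  obtain ⟨P, H, k, hP, hd, hPH, hFe⟩ := factor (deh F) hsq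
  have hH0 : H ≠ 0 := by rintro rfl; exact hPH (dvd_zero _)
  obtain ⟨e₀, he₀⟩ := eval_form F d hF P H k hP.ne_zero hH0 hFe
  obtain ⟨T, hT⟩ : ∃ T : ℤ[X], T = P * H := ⟨_, rfl⟩
  obtain ⟨D, hD⟩ : ∃ D : ℕ, D = P.natDegree + H.natDegree := ⟨_, rfl⟩
  obtain ⟨w', hw'⟩ : ∃ w' : ℤ → ℤ → ℝ, w' = fun v u => if (sl T D v).eval u = 0 then 0 else w v u :=
    ⟨_, rfl⟩
  have hw'1 : ∀ v u, |w' v u| ≤ 1 := by
    intro v u
    rw [hw']
    show |if (sl T D v).eval u = 0 then 0 else w v u| ≤ 1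
    split_ifs
    · simp
    · exact hw v u
  have hTD : T.natDegree ≤ D := by
    rw [hT, hD]
    exact natDegree_mul_le
  have hThick : Thick {q | q ∈ sparse ∧ SimpleRoot T q} := by
    rw [hT]
    exact thick_sparse P H hP hd hPH
  filter_upwards [as_total hM5 g' sparse (fun q hq => hq.1) T D hTD w' hw'1 hThick] with ω hω
    f hf ε hε
  obtain ⟨f', hf', hfm⟩ := isModif_exists g g' hg' sparse ω
  have hff : f = f' := isModif_unique g sparse ω f f' hf hf'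
  subst hff
  obtain ⟨j₀, hj₀⟩ := eventually_atTop.1 (hω (ε / 8) (by positivity))
  obtain ⟨X₁, hX₁⟩ := exists_nat_ge (6 / ε)
  refine ⟨2 ^ j₀ + X₁ + 2, fun X hX c e => ?_⟩
  have hX2 : 2 ≤ X := le_trans (Nat.le_add_left _ _) hX
  have hXX₁ : X₁ ≤ X := by
    have : 0 ≤ 2 ^ j₀ := Nat.zero_le _
    omega
  have hXj : 2 ^ j₀ ≤ X := by omega
  obtain ⟨j, hj⟩ : ∃ j, j = Nat.clog 2 X := ⟨_, rfl⟩
  have h1 : X ≤ 2 ^ j := by rw [hj]; exact Nat.le_pow_clog (by norm_num) X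
  have h2 : 2 ^ j < 2 * X := by
    have h3 : 2 ^ (Nat.clog 2 X).pred < X := Nat.pow_pred_clog_lt_self (by norm_num) (by omega)
    have h4 : 0 < Nat.clog 2 X := Nat.clog_pos (by norm_num) hX2
    have h5 : 2 ^ j = 2 * 2 ^ (Nat.clog 2 X).pred := by
      rw [hj, ← pow_succ']
      congr 1
      exact (Nat.succ_pred_eq_of_pos h4).symm
    omega
  have h3 : j₀ ≤ j := by
    by_contra hlt
    have : 2 ^ j < 2 ^ j₀ := Nat.pow_lt_pow_right (by norm_num) (not_le.1 hlt)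
    omega
  have hmain := hj₀ j h3 (fun v => max (c v) (-(X : ℤ))) (fun v => min (e v) X)
  have hrow : ∀ v ∈ Icc (-(X : ℤ)) X,
      |∑ u ∈ (Icc (-(X : ℤ)) X).filter (fun u => c v ≤ u ∧ u ≤ e v),
        w v u * ((f (MvPolynomial.eval ![u, v] F).natAbs : ℤ) : ℝ)| ≤
      (if v = 0 then (2 * X + 1 : ℝ) else 0) +
      |inner g' sparse T D w' ω (2 ^ j) v (max (c v) (-(X : ℤ))) (min (e v) X)| := by
    intro v _
    split_ifs with hv
    · refine le_add_of_le_of_nonneg ?_ (abs_nonneg _)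
      refine (Finset.abs_sum_le_sum_abs _ _).trans ?_
      calc _ ≤ ∑ u ∈ (Icc (-(X : ℤ)) X).filter (fun u => c v ≤ u ∧ u ≤ e v), (1 : ℝ) := by
            apply Finset.sum_le_sum
            intro u _
            rw [abs_mul]
            have h4 : |((f (MvPolynomial.eval ![u, v] F).natAbs : ℤ) : ℝ)| ≤ 1 := by
              by_cases h0 : (MvPolynomial.eval ![u, v] F).natAbs = 0
              · rw [h0, map_zero]
                simp
              · rw [hfm _ h0, M6.unit_abs]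
            calc |w v u| * |((f (MvPolynomial.eval ![u, v] F).natAbs : ℤ) : ℝ)| ≤ 1 * 1 :=
                  mul_le_mul (hw v u) h4 (abs_nonneg _) zero_le_one
              _ = 1 := one_mul 1
        _ ≤ ∑ u ∈ Icc (-(X : ℤ)) X, (1 : ℝ) :=
            Finset.sum_le_sum_of_subset_of_nonneg (Finset.filter_subset _ _)
              (fun _ _ _ => zero_le_one)
        _ = (2 * X + 1 : ℝ) := by
            rw [Finset.sum_const, Int.card_Icc, nsmul_eq_mul, mul_one]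
            have : ((X : ℤ) + 1 - -(X : ℤ)).toNat = 2 * X + 1 := by omega
            rw [this]
            push_cast
            ring
    · rw [zero_add, row g' sparse ω f hfm F P H k e₀ he₀ (w v) v hv]
      apply le_of_eq
      unfold inner
      congr 1
      rw [← hT, ← hD, hw']
      apply Finset.sum_congr _ (fun _ _ => rfl)
      ext u
      rw [mem_filter, mem_filter, mem_Icc, mem_Icc]
      have h5 : (X : ℤ) ≤ ((2 ^ j : ℕ) : ℤ) := by exact_mod_cast h1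
      constructor
      · rintro ⟨⟨a1, a2⟩, a3, a4⟩
        refine ⟨⟨by omega, by omega⟩, by omega, by omega⟩
      · rintro ⟨⟨a1, a2⟩, a3, a4⟩
        refine ⟨⟨by omega, by omega⟩, by omega, by omega⟩
  have hXr : (2 : ℝ) ≤ X := by exact_mod_cast hX2
  calc _ ≤ ∑ v ∈ Icc (-(X : ℤ)) X, |∑ u ∈ (Icc (-(X : ℤ)) X).filter (fun u => c v ≤ u ∧ u ≤ e v),
        w v u * ((f (MvPolynomial.eval ![u, v] F).natAbs : ℤ) : ℝ)| :=
        Finset.abs_sum_le_sum_abs _ _
    _ ≤ ∑ v ∈ Icc (-(X : ℤ)) X, ((if v = 0 then (2 * X + 1 : ℝ) else 0) +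
      |inner g' sparse T D w' ω (2 ^ j) v (max (c v) (-(X : ℤ))) (min (e v) X)|) :=
        Finset.sum_le_sum hrow
    _ = (2 * X + 1) + ∑ v ∈ Icc (-(X : ℤ)) X,
        |inner g' sparse T D w' ω (2 ^ j) v (max (c v) (-(X : ℤ))) (min (e v) X)| := by
        rw [Finset.sum_add_distrib, Finset.sum_ite_eq']
        rw [if_pos (by rw [mem_Icc]; omega)]
    _ ≤ (2 * X + 1) + ∑ v ∈ Icc (-((2 ^ j : ℕ) : ℤ)) (2 ^ j : ℕ),
        |inner g' sparse T D w' ω (2 ^ j) v (max (c v) (-(X : ℤ))) (min (e v) X)| := by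
        apply add_le_add le_rfl
        apply Finset.sum_le_sum_of_subset_of_nonneg
        · intro v hv
          rw [mem_Icc] at hv ⊢
          have h5 : (X : ℤ) ≤ ((2 ^ j : ℕ) : ℤ) := by exact_mod_cast h1
          constructor <;> omega
        · intro _ _ _
          exact abs_nonneg _
    _ ≤ (2 * X + 1) + ε / 8 * 4 ^ j := add_le_add le_rfl hmain
    _ ≤ ε * (X : ℝ) ^ 2 := by
        have h6 : (4 : ℝ) ^ j ≤ 4 * (X : ℝ) ^ 2 := by
          have h7 : ((2 ^ j : ℕ) : ℝ) ≤ 2 * X := by exact_mod_cast h2.le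
          have h8 : (4 : ℝ) ^ j = ((2 ^ j : ℕ) : ℝ) ^ 2 := by
            push_cast
            rw [← pow_mul, mul_comm j 2, pow_mul]
            norm_num
          rw [h8]
          calc ((2 ^ j : ℕ) : ℝ) ^ 2 ≤ (2 * (X : ℝ)) ^ 2 := pow_le_pow_left₀ (Nat.cast_nonneg _) h7 2
            _ = 4 * (X : ℝ) ^ 2 := by ring
        have h7 : 6 ≤ ε * X := by
          have : (X₁ : ℝ) ≤ X := by exact_mod_cast hXX₁
          have := hX₁.trans this
          rw [div_le_iff₀ hε] at this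
          linarith
        have h8 : 2 * (X : ℝ) + 1 ≤ ε / 2 * (X : ℝ) ^ 2 := by
          have : ε / 2 * (X : ℝ) ^ 2 = (ε * X) / 2 * X := by ring
          rw [this]
          nlinarith
        have h9 := mul_le_mul_of_nonneg_left h6 (by positivity : (0 : ℝ) ≤ ε / 8)
        linarith

end Pool.Agent.TH573.BF
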