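import Pool.Agent.TH573.BF.Slice
import Pool.Agent.H220M.M6
import Pool.Agent.H220M.M6b
import Pool.Agent.H220M.C0

/-!
One scale: for one slice, all prefix sums are small except with small probability.
-/

set_option autoImplicit false

namespace Pool.Agent.TH573.BF

open Finset MeasureTheory Filter Polynomial
open scoped ENNReal
open Pool.Agent.H220M

/-- the sign of the random function at the value of a polynomial -/
noncomputable def sg (g : ℕ → ℤˣ) (Q : Set ℕ) (ω : ℕ → Bool) (z : ℤ) : ℝ :=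
  (((modif g Q ω z.natAbs : ℤˣ) : ℤ) : ℝ)

theorem sg_abs (g : ℕ → ℤˣ) (Q : Set ℕ) (ω : ℕ → Bool) (z : ℤ) : |sg g Q ω z| = 1 :=
  M6.unit_abs _

theorem sg_meas (g : ℕ → ℤˣ) (Q : Set ℕ) (z : ℤ) : Measurable fun ω => sg g Q ω z :=
  measurable_modif_real g Q _

open Classical in
/-- one polynomial, one weight, one scale -/
theorem one_scale (hM5 : StmM5) (g : ℕ → ℤˣ) (Q : Set ℕ)
    (hQ : ∀ q ∈ Q, q.Prime) (F : ℤ[X]) (w : ℕ → ℝ) (hw : ∀ m, |w m| ≤ 1) (η : ℝ) (hη : 0 < η)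
    (s : ℕ) (hs : 1 ≤ s) (x : ℕ) (Q₀ : Finset ℕ)
    (hmem : ∀ q ∈ Q₀, q ∈ Q ∧ SimpleRoot F q ∧ 4 * s * F.natDegree ≤ q)
    (hprod : (∏ q ∈ Q₀, q ^ 2) ≤ x)
    (hS : 4 * Real.log (2 / η) + 2 ≤ ∑ q ∈ Q₀, (1 : ℝ) / q) :
    coins {ω : ℕ → Bool | η * x < |∑ m ∈ range x, w m * sg g Q ω (F.eval ((m : ℤ) + 1))|}
      ≤ ENNReal.ofReal (Real.exp (-(s : ℝ))) := by
  refine tC0.2 g Q Q₀ (fun q hq => ⟨(hmem q hq).1, hQ q (hmem q hq).1⟩)
    (fun h => η * x < |∑ m ∈ range x, w m *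
      (((h ((F.eval ((m : ℤ) + 1)).natAbs) : ℤˣ) : ℤ) : ℝ)|)
    (tM6b g Q F w x (η * x)) _ (Real.exp_nonneg _) ?_
  intro g'
  have hcount := hM5 F η s Q₀ hη hs
    (fun q hq => ⟨hQ q (hmem q hq).1, (hmem q hq).2.1, (hmem q hq).2.2⟩) hS
    x hprod
    (fun m => w m * (((g' ((F.eval ((m : ℤ) + 1)).natAbs) : ℤˣ) : ℤ) : ℝ))
    (fun m => by
      show |w m * (((g' ((F.eval ((m : ℤ) + 1)).natAbs) : ℤˣ) : ℤ) : ℝ)| ≤ 1
      rw [abs_mul, M6.unit_abs, mul_one]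
      exact hw m)
    (fun S => Classical.propDecidable _)
  refine le_trans (le_of_eq ?_) hcount
  congr 2
  ext S
  simp only [Finset.mem_filter]
  have e : ∀ m : ℕ, w m * (((g' ((F.eval ((m : ℤ) + 1)).natAbs) *
      flipU S ((F.eval ((m : ℤ) + 1)).natAbs) : ℤˣ) : ℤ) : ℝ) =
      w m * (((g' ((F.eval ((m : ℤ) + 1)).natAbs) : ℤˣ) : ℤ) : ℝ) *
      (((flipU S ((F.eval ((m : ℤ) + 1)).natAbs) : ℤˣ) : ℤ) : ℝ) := by
    intro m
    rw [Units.val_mul, Int.cast_mul, mul_assoc]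
  rw [Finset.sum_congr rfl (fun m _ => e m)]

/-- the prefix sums -/
noncomputable def pre (g : ℕ → ℤˣ) (Q : Set ℕ) (F : ℤ[X]) (w : ℕ → ℝ) (ω : ℕ → Bool) (y : ℕ) : ℝ :=
  ∑ m ∈ range y, w m * sg g Q ω (F.eval ((m : ℤ) + 1))

theorem pre_diff (g : ℕ → ℤˣ) (Q : Set ℕ) (F : ℤ[X]) (w : ℕ → ℝ) (hw : ∀ m, |w m| ≤ 1)
    (ω : ℕ → Bool) (y z : ℕ) (h : y ≤ z) : |pre g Q F w ω z - pre g Q F w ω y| ≤ (z : ℝ) - y := by
  unfold pre
  rw [← Finset.sum_range_add_sum_Ico _ h, add_sub_cancel_left]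
  calc |∑ m ∈ Ico y z, w m * sg g Q ω (F.eval ((m : ℤ) + 1))|
      ≤ ∑ m ∈ Ico y z, |w m * sg g Q ω (F.eval ((m : ℤ) + 1))| := Finset.abs_sum_le_sum_abs _ _
    _ ≤ ∑ m ∈ Ico y z, (1 : ℝ) := by
        apply Finset.sum_le_sum
        intro m _
        rw [abs_mul, sg_abs, mul_one]
        exact hw m
    _ = (z : ℝ) - y := by
        rw [Finset.sum_const, Nat.card_Ico, nsmul_eq_mul, mul_one, Nat.cast_sub h]

/-- the bad set of a slice: some prefix sum is large -/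
def Bad (g : ℕ → ℤˣ) (Q : Set ℕ) (F : ℤ[X]) (w : ℕ → ℝ) (η : ℝ) (x L : ℕ) : Set (ℕ → Bool) :=
  ⋃ k ∈ range (L + 1), {ω | η * x < |pre g Q F w ω (min (k * (x / L + 1)) x)|}

theorem pre_meas (g : ℕ → ℤˣ) (Q : Set ℕ) (F : ℤ[X]) (w : ℕ → ℝ) (y : ℕ) :
    Measurable fun ω => pre g Q F w ω y := by
  unfold pre
  refine Finset.measurable_sum _ ?_
  intro m _
  exact (sg_meas g Q _).const_mul (w m)

theorem bad_meas (g : ℕ → ℤˣ) (Q : Set ℕ) (F : ℤ[X]) (w : ℕ → ℝ) (η : ℝ) (x L : ℕ) :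
    MeasurableSet (Bad g Q F w η x L) := by
  unfold Bad
  apply Finset.measurableSet_biUnion
  intro k _
  exact measurableSet_lt measurable_const (continuous_abs.measurable.comp (pre_meas g Q F w _))

/-- off the bad set all prefix sums are small -/
theorem good_pre (g : ℕ → ℤˣ) (Q : Set ℕ) (F : ℤ[X]) (w : ℕ → ℝ) (hw : ∀ m, |w m| ≤ 1)
    (η : ℝ) (x L : ℕ) (hL : 1 ≤ L) (ω : ℕ → Bool) (hω : ω ∉ Bad g Q F w η x L) (y : ℕ)
    (hy : y ≤ x) : |pre g Q F w ω y| ≤ η * x + x / L + 1 := by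
  have hk : y / (x / L + 1) < L + 1 := by
    rw [Nat.div_lt_iff_lt_mul (Nat.succ_pos _)]
    have h1 : x < (x / L + 1) * L := Nat.lt_mul_of_div_lt (Nat.lt_succ_self _) (by omega)
    nlinarith
  have h2 : |pre g Q F w ω (min (y / (x / L + 1) * (x / L + 1)) x)| ≤ η * x := by
    by_contra hc
    push Not at hc
    apply hω
    unfold Bad
    simp only [Set.mem_iUnion, Set.mem_ofPred_eq]
    exact ⟨y / (x / L + 1), Finset.mem_range.2 hk, hc⟩
  have h3 : y / (x / L + 1) * (x / L + 1) ≤ y := Nat.div_mul_le_self _ _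
  have h4 : y < y / (x / L + 1) * (x / L + 1) + (x / L + 1) := by
    exact Nat.lt_div_mul_add (a := y) (b := x / L + 1) (Nat.succ_pos _)
  rw [min_eq_left (h3.trans hy)] at h2
  have h5 := pre_diff g Q F w hw ω _ y h3
  have h6 : (y : ℝ) - (y / (x / L + 1) * (x / L + 1) : ℕ) ≤ (x / L : ℕ) + 1 := by
    have : y ≤ y / (x / L + 1) * (x / L + 1) + (x / L + 1) := h4.le
    have h7 : (y : ℝ) ≤ (y / (x / L + 1) * (x / L + 1) + (x / L + 1) : ℕ) := by exact_mod_cast this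
    rw [Nat.cast_add (y / (x / L + 1) * (x / L + 1)) (x / L + 1)] at h7
    have h8 : ((x / L + 1 : ℕ) : ℝ) = (x / L : ℕ) + 1 := by push_cast; rfl
    linarith
  have h9 : ((x / L : ℕ) : ℝ) ≤ (x : ℝ) / L := Nat.cast_div_le
  have h10 : |pre g Q F w ω y| ≤ |pre g Q F w ω (y / (x / L + 1) * (x / L + 1))| +
      |pre g Q F w ω y - pre g Q F w ω (y / (x / L + 1) * (x / L + 1))| := by
    calc |pre g Q F w ω y| = |pre g Q F w ω (y / (x / L + 1) * (x / L + 1)) +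
        (pre g Q F w ω y - pre g Q F w ω (y / (x / L + 1) * (x / L + 1)))| := by ring_nf
      _ ≤ _ := abs_add_le _ _
  linarith

/-- the probability of the bad set -/
theorem bad_prob (hM5 : StmM5) (g : ℕ → ℤˣ) (Q : Set ℕ)
    (hQ : ∀ q ∈ Q, q.Prime) (F : ℤ[X]) (w : ℕ → ℝ) (hw : ∀ m, |w m| ≤ 1) (η : ℝ) (hη : 0 < η)
    (s : ℕ) (hs : 1 ≤ s) (x L : ℕ) (Q₀ : Finset ℕ)
    (hmem : ∀ q ∈ Q₀, q ∈ Q ∧ SimpleRoot F q ∧ 4 * s * F.natDegree ≤ q)
    (hprod : (∏ q ∈ Q₀, q ^ 2) ≤ x)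
    (hS : 4 * Real.log (2 / η) + 2 ≤ ∑ q ∈ Q₀, (1 : ℝ) / q) :
    coins (Bad g Q F w η x L) ≤ ENNReal.ofReal ((L + 1) * Real.exp (-(s : ℝ))) := by
  unfold Bad
  refine (measure_biUnion_finset_le _ _).trans ?_
  refine (Finset.sum_le_sum (fun k _ => ?_)).trans
    (le_of_eq (?_ : ∑ k ∈ range (L + 1), ENNReal.ofReal (Real.exp (-(s : ℝ))) = _))
  · have h1 := one_scale hM5 g Q hQ F (fun m => if m < min (k * (x / L + 1)) x then w m else 0)
      (fun m => by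
        split_ifs
        · exact hw m
        · simp) η hη s hs x Q₀ hmem hprod hS
    refine le_trans (measure_mono ?_) h1
    intro ω hω
    simp only [Set.mem_ofPred_eq] at hω ⊢
    refine lt_of_lt_of_eq hω ?_
    congr 1
    unfold pre
    have e : ∀ m ∈ range x, (if m < min (k * (x / L + 1)) x then w m else 0) *
        sg g Q ω (F.eval ((m : ℤ) + 1)) =
        if m < min (k * (x / L + 1)) x then w m * sg g Q ω (F.eval ((m : ℤ) + 1)) else 0 := by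
      intro m _
      split_ifs
      · rfl
      · rw [zero_mul]
    rw [Finset.sum_congr rfl e, ← Finset.sum_filter]
    apply Finset.sum_congr _ (fun _ _ => rfl)
    ext m
    simp only [mem_range, mem_filter, lt_min_iff]
    tauto
  · rw [Finset.sum_const, card_range, nsmul_eq_mul, ENNReal.ofReal_mul (by positivity)]
    congr 1
    rw [← ENNReal.ofReal_natCast]
    congr 1
    push_cast
    rfl

end Pool.Agent.TH573.BF
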