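import Pool.Agent.H220M.Base4

/-!
The slices `u ↦ v^D T(u / v)` of the homogenization of an integer polynomial `T`.
-/

set_option autoImplicit false

namespace Pool.Agent.TH573.BF

open Polynomial Finset
open Pool.Agent.H220M

/-- `v^D T(X / v)` -/
noncomputable def sl (T : ℤ[X]) (D : ℕ) (v : ℤ) : ℤ[X] :=
  ∑ i ∈ range (D + 1), C (T.coeff i * v ^ (D - i)) * X ^ i

theorem sl_eval (T : ℤ[X]) (D : ℕ) (v u : ℤ) :
    (sl T D v).eval u = ∑ i ∈ range (D + 1), T.coeff i * v ^ (D - i) * u ^ i := by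
  unfold sl
  rw [eval_finsetSum]
  simp

theorem sl_degree (T : ℤ[X]) (D : ℕ) (v : ℤ) : (sl T D v).natDegree ≤ D := by
  unfold sl
  apply natDegree_sum_le_of_forall_le
  intro i hi
  refine (natDegree_C_mul_X_pow_le _ _).trans ?_
  have := mem_range.1 hi
  omega

theorem sl_scale (T : ℤ[X]) (D : ℕ) (hT : T.natDegree ≤ D) (v a : ℤ) :
    (sl T D v).eval (v * a) = v ^ D * T.eval a := by
  rw [sl_eval, eval_eq_sum_range' (Nat.lt_succ_of_le hT), Finset.mul_sum]
  apply Finset.sum_congr rfl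
  intro i hi
  have hi' : i ≤ D := Nat.lt_succ_iff.1 (mem_range.1 hi)
  have e : v ^ D = v ^ (D - i) * v ^ i := by rw [← pow_add, Nat.sub_add_cancel hi']
  rw [e, mul_pow]
  ring

theorem sl_deriv (T : ℤ[X]) (D : ℕ) (hT : T.natDegree ≤ D) (v a : ℤ) :
    v * (sl T D v).derivative.eval (v * a) = v ^ D * T.derivative.eval a := by
  have h1 : (sl T D v).derivative.eval (v * a) =
      ∑ i ∈ range (D + 1), T.coeff i * v ^ (D - i) * (i * (v * a) ^ (i - 1)) := by
    unfold sl
    rw [derivative_sum, eval_finsetSum]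
    apply Finset.sum_congr rfl
    intro i _
    rw [derivative_C_mul_X_pow]
    simp only [eval_mul, eval_C, eval_pow, eval_X]
    ring
  have h2 : T.derivative.eval a = ∑ i ∈ range (D + 1), T.coeff i * (i * a ^ (i - 1)) := by
    conv_lhs => rw [T.as_sum_range' (D + 1) (Nat.lt_succ_of_le hT)]
    rw [derivative_sum, eval_finsetSum]
    apply Finset.sum_congr rfl
    intro i _
    rw [derivative_monomial]
    simp only [eval_monomial]
    ring
  rw [h1, h2, Finset.mul_sum, Finset.mul_sum]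
  apply Finset.sum_congr rfl
  intro i hi
  have hi' : i ≤ D := Nat.lt_succ_iff.1 (mem_range.1 hi)
  rcases Nat.eq_zero_or_pos i with rfl | h0
  · simp
  · have e : v ^ D = v ^ (D - i) * (v * v ^ (i - 1)) := by
      rw [← pow_succ', Nat.sub_add_cancel h0, ← pow_add, Nat.sub_add_cancel hi']
    rw [e, mul_pow]
    ring

/-- simple roots of the slices -/
theorem sl_simple (T : ℤ[X]) (D : ℕ) (hT : T.natDegree ≤ D) (v : ℤ) (q : ℕ) (hq : q.Prime)
    (hv : ¬ (q : ℤ) ∣ v) (h : SimpleRoot T q) (c : ℤ) :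
    SimpleRoot ((sl T D v).comp (X - C c)) q := by
  obtain ⟨a, h1, h2⟩ := h
  have hp : Prime (q : ℤ) := Nat.prime_iff_prime_int.1 hq
  refine ⟨v * a + c, ?_, ?_⟩
  · rw [eval_comp]
    simp only [eval_sub, eval_X, eval_C, add_sub_cancel_right]
    rw [sl_scale T D hT]
    exact Dvd.dvd.mul_left h1 _
  · rw [derivative_comp]
    simp only [derivative_sub, derivative_X, derivative_C, sub_zero, eval_mul, eval_one,
      one_mul, eval_comp, eval_sub, eval_X, eval_C, add_sub_cancel_right]
    intro h3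
    have h4 : (q : ℤ) ∣ v ^ D * T.derivative.eval a := by
      rw [← sl_deriv T D hT]
      exact Dvd.dvd.mul_left h3 _
    rcases hp.dvd_or_dvd h4 with h5 | h5
    · exact hv (hp.dvd_of_dvd_pow h5)
    · exact h2 h5

theorem sl_comp_degree (T : ℤ[X]) (D : ℕ) (v c : ℤ) :
    ((sl T D v).comp (X - C c)).natDegree ≤ D := by
  rw [natDegree_comp, natDegree_X_sub_C, mul_one]
  exact sl_degree T D v

theorem sl_homogenize (T : ℤ[X]) (D : ℕ) (u v : ℤ) :
    MvPolynomial.eval ![u, v] (T.homogenize D) = (sl T D v).eval u := by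
  rw [sl_eval, homogenize, map_sum, Finset.Nat.sum_antidiagonal_eq_sum_range_succ_mk]
  apply Finset.sum_congr rfl
  intro i hi
  rw [MvPolynomial.eval_monomial, Finsupp.update_eq_add_single, Finsupp.prod_add_index',
    Finsupp.prod_single_index, Finsupp.prod_single_index]
  · simp
    ring
  all_goals simp [pow_add]

end Pool.Agent.TH573.BF
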